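import Pool.Agent.T9h12.C6.H2.Tab
import Pool.Agent.T9h12.C6.Gram

/-! Checks of the Gram representations. -/

set_option autoImplicit false
set_option maxRecDepth 100000
set_option maxHeartbeats 4000000
open Finset

namespace Pool.Agent.T9h12.C6.H2
open Pool.Agent.H449R2.Fl

theorem hG_0 : nall (ns 0) (ckG ns uf TG lf lh 14 65536 524288 461 1000 1008044886 0) = true := by
  decide +kernel
theorem hG_1 : nall (ns 1) (ckG ns uf TG lf lh 14 65536 524288 461 1000 1008044886 1) = true := by
  decide +kernel
theorem hG_2 : nall (ns 2) (ckG ns uf TG lf lh 14 65536 524288 461 1000 1008044886 2) = true := by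
  decide +kernel
theorem hG_3 : nall (ns 3) (ckG ns uf TG lf lh 14 65536 524288 461 1000 1008044886 3) = true := by
  decide +kernel
theorem hG_4 : nall (ns 4) (ckG ns uf TG lf lh 14 65536 524288 461 1000 1008044886 4) = true := by
  decide +kernel
theorem hG_5 : nall (ns 5) (ckG ns uf TG lf lh 14 65536 524288 461 1000 1008044886 5) = true := by
  decide +kernel
theorem hG_6 : nall (ns 6) (ckG ns uf TG lf lh 14 65536 524288 461 1000 1008044886 6) = true := by
  decide +kernel
theorem hG_7 : nall (ns 7) (ckG ns uf TG lf lh 14 65536 524288 461 1000 1008044886 7) = true := by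
  decide +kernel
theorem hG_8 : nall (ns 8) (ckG ns uf TG lf lh 14 65536 524288 461 1000 1008044886 8) = true := by
  decide +kernel
theorem hG_9 : nall (ns 9) (ckG ns uf TG lf lh 14 65536 524288 461 1000 1008044886 9) = true := by
  decide +kernel
theorem hG_10 : nall (ns 10) (ckG ns uf TG lf lh 14 65536 524288 461 1000 1008044886 10) = true := by
  decide +kernel
theorem hG_11 : nall (ns 11) (ckG ns uf TG lf lh 14 65536 524288 461 1000 1008044886 11) = true := by
  decide +kernel
theorem hG_12 : nall (ns 12) (ckG ns uf TG lf lh 14 65536 524288 461 1000 1008044886 12) = true := by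
  decide +kernel
theorem hG_13 : nall (ns 13) (ckG ns uf TG lf lh 14 65536 524288 461 1000 1008044886 13) = true := by
  decide +kernel
theorem hG_14 : nall (ns 14) (ckG ns uf TG lf lh 14 65536 524288 461 1000 1008044886 14) = true := by
  decide +kernel
theorem hG_15 : nall (ns 15) (ckG ns uf TG lf lh 14 65536 524288 461 1000 1008044886 15) = true := by
  decide +kernel
theorem hG_16 : nall (ns 16) (ckG ns uf TG lf lh 14 65536 524288 461 1000 1008044886 16) = true := by
  decide +kernel
theorem hG_17 : nall (ns 17) (ckG ns uf TG lf lh 14 65536 524288 461 1000 1008044886 17) = true := by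
  decide +kernel
theorem hG_18 : nall (ns 18) (ckG ns uf TG lf lh 14 65536 524288 461 1000 1008044886 18) = true := by
  decide +kernel
theorem hG_19 : nall (ns 19) (ckG ns uf TG lf lh 14 65536 524288 461 1000 1008044886 19) = true := by
  decide +kernel
theorem hG_20 : nall (ns 20) (ckG ns uf TG lf lh 14 65536 524288 461 1000 1008044886 20) = true := by
  decide +kernel
theorem hG_21 : nall (ns 21) (ckG ns uf TG lf lh 14 65536 524288 461 1000 1008044886 21) = true := by
  decide +kernel
theorem hG_22 : nall (ns 22) (ckG ns uf TG lf lh 14 65536 524288 461 1000 1008044886 22) = true := by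
  decide +kernel
theorem hG_23 : nall (ns 23) (ckG ns uf TG lf lh 14 65536 524288 461 1000 1008044886 23) = true := by
  decide +kernel
theorem hG_24 : nall (ns 24) (ckG ns uf TG lf lh 14 65536 524288 461 1000 1008044886 24) = true := by
  decide +kernel
theorem hG_25 : nall (ns 25) (ckG ns uf TG lf lh 14 65536 524288 461 1000 1008044886 25) = true := by
  decide +kernel
theorem hG_26 : nall (ns 26) (ckG ns uf TG lf lh 14 65536 524288 461 1000 1008044886 26) = true := by
  decide +kernel
theorem hG_27 : nall (ns 27) (ckG ns uf TG lf lh 14 65536 524288 461 1000 1008044886 27) = true := by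
  decide +kernel
theorem hG_28 : nall (ns 28) (ckG ns uf TG lf lh 14 65536 524288 461 1000 1008044886 28) = true := by
  decide +kernel
theorem hG_29 : nall (ns 29) (ckG ns uf TG lf lh 14 65536 524288 461 1000 1008044886 29) = true := by
  decide +kernel
theorem hG_30 : nall (ns 30) (ckG ns uf TG lf lh 14 65536 524288 461 1000 1008044886 30) = true := by
  decide +kernel

def zz : ℕ → ℤ := fun u => 1000 * (1 - (u : ℤ)) - 461
def tau (s : ℕ) : ℤ := [0, 0, 0, 0, 0, 0, 0, 0].getD s 0
def mu (s : ℕ) : ℤ := [0, 0, 0, 0, 0, 0, 0, 0].getD s 0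

theorem hG_all : ∀ s < 31, nall (ns s) (ckG ns uf TG lf lh 14 65536 524288 461 1000 1008044886 s) = true := by
  intro s hs
  interval_cases s
  exacts [hG_0, hG_1, hG_2, hG_3, hG_4, hG_5, hG_6, hG_7, hG_8, hG_9, hG_10, hG_11, hG_12, hG_13, hG_14, hG_15, hG_16, hG_17, hG_18, hG_19, hG_20, hG_21, hG_22, hG_23, hG_24, hG_25, hG_26, hG_27, hG_28, hG_29, hG_30]

theorem hP_all : nall 3 (fun r => nall (n2 r) (ckPG n2 TP mf 14 65536 2948153655 r)) = true := by
  decide +kernel

theorem certOk : CertOk ns uf n2 TG TP TQ zz 1008044886 2948153655 71437092 536870912 tau mu := by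
  refine ⟨⟨14, fun s i k => (lf s i k : ℤ) - 65536, fun s i => (lh s i : ℤ) - 524288, ?_⟩,
    ⟨14, fun s i k => (mf s i k : ℤ) - 65536, ?_⟩, ⟨7, fun s k => (nf s k : ℤ) - 65536, ?_⟩, ?_⟩
  · intro s hs i hi j hj
    exact ckG_true (hG_all s hs) idOk_uf hi hj
  · intro r hr i hi j hj
    exact ckPG_true (nall_true hP_all r hr) hi hj
  · decide +kernel
  · decide +kernel

end Pool.Agent.T9h12.C6.H2
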