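import Pool.Agent.T9h12.C6.H2.Tab
import Pool.Agent.T9h12.C6.Eval

/-! Evaluation of the certificate, part 11. -/

set_option autoImplicit false
set_option maxRecDepth 100000
set_option maxHeartbeats 4000000

namespace Pool.Agent.T9h12.C6.H2
open Pool.Agent.H449R2.Fl

theorem k1430 : ckR inA (val sig idf ip TG TP TQ) 3329344731600 1430 20 = true := by
  decide +kernel
theorem k1450 : ckR inA (val sig idf ip TG TP TQ) 3329344731600 1450 13 = true := by
  decide +kernel
theorem k1463 : ckR inA (val sig idf ip TG TP TQ) 3329344731600 1463 37 = true := by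
  decide +kernel
theorem k1500 : ckR inA (val sig idf ip TG TP TQ) 3329344731600 1500 58 = true := by
  decide +kernel
theorem k1558 : ckR inA (val sig idf ip TG TP TQ) 3329344731600 1558 41 = true := by
  decide +kernel
theorem k1599 : ckR inA (val sig idf ip TG TP TQ) 3329344731600 1599 50 = true := by
  decide +kernel

end Pool.Agent.T9h12.C6.H2
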