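import Pool.Agent.T9h12.C6.H2.Tab
import Pool.Agent.T9h12.C6.Eval

/-! Evaluation of the certificate, part 12. -/

set_option autoImplicit false
set_option maxRecDepth 100000
set_option maxHeartbeats 4000000

namespace Pool.Agent.T9h12.C6.H2
open Pool.Agent.H449R2.Fl

theorem k1649 : ckR inA (val sig idf ip TG TP TQ) 3329344731600 1649 15 = true := by
  decide +kernel
theorem k1664 : ckR inA (val sig idf ip TG TP TQ) 3329344731600 1664 31 = true := by
  decide +kernel
theorem k1695 : ckR inA (val sig idf ip TG TP TQ) 3329344731600 1695 50 = true := by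
  decide +kernel
theorem k1745 : ckR inA (val sig idf ip TG TP TQ) 3329344731600 1745 67 = true := by
  decide +kernel
theorem k1812 : ckR inA (val sig idf ip TG TP TQ) 3329344731600 1812 24 = true := by
  decide +kernel
theorem k1836 : ckR inA (val sig idf ip TG TP TQ) 3329344731600 1836 31 = true := by
  decide +kernel

end Pool.Agent.T9h12.C6.H2
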