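import Pool.Agent.T9h12.C6.H2.Tab
import Pool.Agent.T9h12.C6.Eval

/-! Evaluation of the certificate, part 4. -/

set_option autoImplicit false
set_option maxRecDepth 100000
set_option maxHeartbeats 4000000

namespace Pool.Agent.T9h12.C6.H2
open Pool.Agent.H449R2.Fl

theorem k441 : ckR inA (val sig idf ip TG TP TQ) 3329344731600 441 34 = true := by
  decide +kernel
theorem k475 : ckR inA (val sig idf ip TG TP TQ) 3329344731600 475 27 = true := by
  decide +kernel
theorem k502 : ckR inA (val sig idf ip TG TP TQ) 3329344731600 502 13 = true := by
  decide +kernel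
theorem k515 : ckR inA (val sig idf ip TG TP TQ) 3329344731600 515 18 = true := by
  decide +kernel
theorem k533 : ckR inA (val sig idf ip TG TP TQ) 3329344731600 533 13 = true := by
  decide +kernel
theorem k546 : ckR inA (val sig idf ip TG TP TQ) 3329344731600 546 18 = true := by
  decide +kernel

end Pool.Agent.T9h12.C6.H2
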