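import Pool.Agent.T9h12.C6.H2.Tab
import Pool.Agent.T9h12.C6.Eval

/-! Evaluation of the certificate, part 7. -/

set_option autoImplicit false
set_option maxRecDepth 100000
set_option maxHeartbeats 4000000

namespace Pool.Agent.T9h12.C6.H2
open Pool.Agent.H449R2.Fl

theorem k803 : ckR inA (val sig idf ip TG TP TQ) 3329344731600 803 23 = true := by
  decide +kernel
theorem k826 : ckR inA (val sig idf ip TG TP TQ) 3329344731600 826 17 = true := by
  decide +kernel
theorem k843 : ckR inA (val sig idf ip TG TP TQ) 3329344731600 843 22 = true := by
  decide +kernel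
theorem k865 : ckR inA (val sig idf ip TG TP TQ) 3329344731600 865 24 = true := by
  decide +kernel
theorem k889 : ckR inA (val sig idf ip TG TP TQ) 3329344731600 889 13 = true := by
  decide +kernel
theorem k902 : ckR inA (val sig idf ip TG TP TQ) 3329344731600 902 51 = true := by
  decide +kernel

end Pool.Agent.T9h12.C6.H2
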