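import Pool.Agent.T9h12.C6.H2.Tab
import Pool.Agent.T9h12.C6.Eval

/-! Evaluation of the certificate, part 8. -/

set_option autoImplicit false
set_option maxRecDepth 100000
set_option maxHeartbeats 4000000

namespace Pool.Agent.T9h12.C6.H2
open Pool.Agent.H449R2.Fl

theorem k953 : ckR inA (val sig idf ip TG TP TQ) 3329344731600 953 32 = true := by
  decide +kernel
theorem k985 : ckR inA (val sig idf ip TG TP TQ) 3329344731600 985 31 = true := by
  decide +kernel
theorem k1016 : ckR inA (val sig idf ip TG TP TQ) 3329344731600 1016 46 = true := by
  decide +kernel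
theorem k1062 : ckR inA (val sig idf ip TG TP TQ) 3329344731600 1062 49 = true := by
  decide +kernel
theorem k1111 : ckR inA (val sig idf ip TG TP TQ) 3329344731600 1111 35 = true := by
  decide +kernel
theorem k1146 : ckR inA (val sig idf ip TG TP TQ) 3329344731600 1146 35 = true := by
  decide +kernel

end Pool.Agent.T9h12.C6.H2
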