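import Pool.Agent.T9h12.C6.H2.K0
import Pool.Agent.T9h12.C6.H2.K1
import Pool.Agent.T9h12.C6.H2.K2
import Pool.Agent.T9h12.C6.H2.K3
import Pool.Agent.T9h12.C6.H2.K4
import Pool.Agent.T9h12.C6.H2.K5
import Pool.Agent.T9h12.C6.H2.K6
import Pool.Agent.T9h12.C6.H2.K7
import Pool.Agent.T9h12.C6.H2.K8
import Pool.Agent.T9h12.C6.H2.K9
import Pool.Agent.T9h12.C6.H2.K10
import Pool.Agent.T9h12.C6.H2.K11
import Pool.Agent.T9h12.C6.H2.K12
import Pool.Agent.T9h12.C6.H2.K13
import Pool.Agent.T9h12.C6.H2.Gr

/-! Evaluation of the certificate: all representatives. -/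

set_option autoImplicit false
set_option maxRecDepth 100000
set_option maxHeartbeats 4000000

namespace Pool.Agent.T9h12.C6.H2
open Pool.Agent.H449R2.Fl

theorem chk_all : ∀ h < 2136, ∀ c0 ≤ 1, ∀ c1 ≤ 1, ∀ c2 ≤ 1, ∀ c3 ≤ 1, ∀ c4 ≤ 1, ∀ c5 ≤ 1,
    ((hasK4 (rep6 h) || inA (rep6 h) c0 c1 c2 c3 c4 c5) ||
      Nat.ble (val sig idf ip TG TP TQ (rep6 h) c0 c1 c2 c3 c4 c5) 3329344731600) = true := by
  intro h hh
  rcases Nat.lt_or_ge h 14 with h1 | h1
  · exact ckR_true k0 (by omega) (by omega)
  rcases Nat.lt_or_ge h 35 with h1 | h1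
  · exact ckR_true k14 (by omega) (by omega)
  rcases Nat.lt_or_ge h 49 with h1 | h1
  · exact ckR_true k35 (by omega) (by omega)
  rcases Nat.lt_or_ge h 64 with h1 | h1
  · exact ckR_true k49 (by omega) (by omega)
  rcases Nat.lt_or_ge h 77 with h1 | h1
  · exact ckR_true k64 (by omega) (by omega)
  rcases Nat.lt_or_ge h 96 with h1 | h1
  · exact ckR_true k77 (by omega) (by omega)
  rcases Nat.lt_or_ge h 110 with h1 | h1
  · exact ckR_true k96 (by omega) (by omega)
  rcases Nat.lt_or_ge h 123 with h1 | h1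
  · exact ckR_true k110 (by omega) (by omega)
  rcases Nat.lt_or_ge h 145 with h1 | h1
  · exact ckR_true k123 (by omega) (by omega)
  rcases Nat.lt_or_ge h 173 with h1 | h1
  · exact ckR_true k145 (by omega) (by omega)
  rcases Nat.lt_or_ge h 188 with h1 | h1
  · exact ckR_true k173 (by omega) (by omega)
  rcases Nat.lt_or_ge h 202 with h1 | h1
  · exact ckR_true k188 (by omega) (by omega)
  rcases Nat.lt_or_ge h 216 with h1 | h1
  · exact ckR_true k202 (by omega) (by omega)
  rcases Nat.lt_or_ge h 230 with h1 | h1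
  · exact ckR_true k216 (by omega) (by omega)
  rcases Nat.lt_or_ge h 243 with h1 | h1
  · exact ckR_true k230 (by omega) (by omega)
  rcases Nat.lt_or_ge h 258 with h1 | h1
  · exact ckR_true k243 (by omega) (by omega)
  rcases Nat.lt_or_ge h 278 with h1 | h1
  · exact ckR_true k258 (by omega) (by omega)
  rcases Nat.lt_or_ge h 297 with h1 | h1
  · exact ckR_true k278 (by omega) (by omega)
  rcases Nat.lt_or_ge h 317 with h1 | h1
  · exact ckR_true k297 (by omega) (by omega)
  rcases Nat.lt_or_ge h 330 with h1 | h1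
  · exact ckR_true k317 (by omega) (by omega)
  rcases Nat.lt_or_ge h 343 with h1 | h1
  · exact ckR_true k330 (by omega) (by omega)
  rcases Nat.lt_or_ge h 370 with h1 | h1
  · exact ckR_true k343 (by omega) (by omega)
  rcases Nat.lt_or_ge h 414 with h1 | h1
  · exact ckR_true k370 (by omega) (by omega)
  rcases Nat.lt_or_ge h 441 with h1 | h1
  · exact ckR_true k414 (by omega) (by omega)
  rcases Nat.lt_or_ge h 475 with h1 | h1
  · exact ckR_true k441 (by omega) (by omega)
  rcases Nat.lt_or_ge h 502 with h1 | h1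
  · exact ckR_true k475 (by omega) (by omega)
  rcases Nat.lt_or_ge h 515 with h1 | h1
  · exact ckR_true k502 (by omega) (by omega)
  rcases Nat.lt_or_ge h 533 with h1 | h1
  · exact ckR_true k515 (by omega) (by omega)
  rcases Nat.lt_or_ge h 546 with h1 | h1
  · exact ckR_true k533 (by omega) (by omega)
  rcases Nat.lt_or_ge h 564 with h1 | h1
  · exact ckR_true k546 (by omega) (by omega)
  rcases Nat.lt_or_ge h 579 with h1 | h1
  · exact ckR_true k564 (by omega) (by omega)
  rcases Nat.lt_or_ge h 606 with h1 | h1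
  · exact ckR_true k579 (by omega) (by omega)
  rcases Nat.lt_or_ge h 638 with h1 | h1
  · exact ckR_true k606 (by omega) (by omega)
  rcases Nat.lt_or_ge h 653 with h1 | h1
  · exact ckR_true k638 (by omega) (by omega)
  rcases Nat.lt_or_ge h 668 with h1 | h1
  · exact ckR_true k653 (by omega) (by omega)
  rcases Nat.lt_or_ge h 687 with h1 | h1
  · exact ckR_true k668 (by omega) (by omega)
  rcases Nat.lt_or_ge h 714 with h1 | h1
  · exact ckR_true k687 (by omega) (by omega)
  rcases Nat.lt_or_ge h 733 with h1 | h1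
  · exact ckR_true k714 (by omega) (by omega)
  rcases Nat.lt_or_ge h 751 with h1 | h1
  · exact ckR_true k733 (by omega) (by omega)
  rcases Nat.lt_or_ge h 765 with h1 | h1
  · exact ckR_true k751 (by omega) (by omega)
  rcases Nat.lt_or_ge h 783 with h1 | h1
  · exact ckR_true k765 (by omega) (by omega)
  rcases Nat.lt_or_ge h 803 with h1 | h1
  · exact ckR_true k783 (by omega) (by omega)
  rcases Nat.lt_or_ge h 826 with h1 | h1
  · exact ckR_true k803 (by omega) (by omega)
  rcases Nat.lt_or_ge h 843 with h1 | h1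
  · exact ckR_true k826 (by omega) (by omega)
  rcases Nat.lt_or_ge h 865 with h1 | h1
  · exact ckR_true k843 (by omega) (by omega)
  rcases Nat.lt_or_ge h 889 with h1 | h1
  · exact ckR_true k865 (by omega) (by omega)
  rcases Nat.lt_or_ge h 902 with h1 | h1
  · exact ckR_true k889 (by omega) (by omega)
  rcases Nat.lt_or_ge h 953 with h1 | h1
  · exact ckR_true k902 (by omega) (by omega)
  rcases Nat.lt_or_ge h 985 with h1 | h1
  · exact ckR_true k953 (by omega) (by omega)
  rcases Nat.lt_or_ge h 1016 with h1 | h1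
  · exact ckR_true k985 (by omega) (by omega)
  rcases Nat.lt_or_ge h 1062 with h1 | h1
  · exact ckR_true k1016 (by omega) (by omega)
  rcases Nat.lt_or_ge h 1111 with h1 | h1
  · exact ckR_true k1062 (by omega) (by omega)
  rcases Nat.lt_or_ge h 1146 with h1 | h1
  · exact ckR_true k1111 (by omega) (by omega)
  rcases Nat.lt_or_ge h 1181 with h1 | h1
  · exact ckR_true k1146 (by omega) (by omega)
  rcases Nat.lt_or_ge h 1197 with h1 | h1
  · exact ckR_true k1181 (by omega) (by omega)
  rcases Nat.lt_or_ge h 1226 with h1 | h1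
  · exact ckR_true k1197 (by omega) (by omega)
  rcases Nat.lt_or_ge h 1241 with h1 | h1
  · exact ckR_true k1226 (by omega) (by omega)
  rcases Nat.lt_or_ge h 1258 with h1 | h1
  · exact ckR_true k1241 (by omega) (by omega)
  rcases Nat.lt_or_ge h 1279 with h1 | h1
  · exact ckR_true k1258 (by omega) (by omega)
  rcases Nat.lt_or_ge h 1295 with h1 | h1
  · exact ckR_true k1279 (by omega) (by omega)
  rcases Nat.lt_or_ge h 1320 with h1 | h1
  · exact ckR_true k1295 (by omega) (by omega)
  rcases Nat.lt_or_ge h 1355 with h1 | h1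
  · exact ckR_true k1320 (by omega) (by omega)
  rcases Nat.lt_or_ge h 1372 with h1 | h1
  · exact ckR_true k1355 (by omega) (by omega)
  rcases Nat.lt_or_ge h 1391 with h1 | h1
  · exact ckR_true k1372 (by omega) (by omega)
  rcases Nat.lt_or_ge h 1413 with h1 | h1
  · exact ckR_true k1391 (by omega) (by omega)
  rcases Nat.lt_or_ge h 1430 with h1 | h1
  · exact ckR_true k1413 (by omega) (by omega)
  rcases Nat.lt_or_ge h 1450 with h1 | h1
  · exact ckR_true k1430 (by omega) (by omega)
  rcases Nat.lt_or_ge h 1463 with h1 | h1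
  · exact ckR_true k1450 (by omega) (by omega)
  rcases Nat.lt_or_ge h 1500 with h1 | h1
  · exact ckR_true k1463 (by omega) (by omega)
  rcases Nat.lt_or_ge h 1558 with h1 | h1
  · exact ckR_true k1500 (by omega) (by omega)
  rcases Nat.lt_or_ge h 1599 with h1 | h1
  · exact ckR_true k1558 (by omega) (by omega)
  rcases Nat.lt_or_ge h 1649 with h1 | h1
  · exact ckR_true k1599 (by omega) (by omega)
  rcases Nat.lt_or_ge h 1664 with h1 | h1
  · exact ckR_true k1649 (by omega) (by omega)
  rcases Nat.lt_or_ge h 1695 with h1 | h1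
  · exact ckR_true k1664 (by omega) (by omega)
  rcases Nat.lt_or_ge h 1745 with h1 | h1
  · exact ckR_true k1695 (by omega) (by omega)
  rcases Nat.lt_or_ge h 1812 with h1 | h1
  · exact ckR_true k1745 (by omega) (by omega)
  rcases Nat.lt_or_ge h 1836 with h1 | h1
  · exact ckR_true k1812 (by omega) (by omega)
  rcases Nat.lt_or_ge h 1867 with h1 | h1
  · exact ckR_true k1836 (by omega) (by omega)
  rcases Nat.lt_or_ge h 1978 with h1 | h1
  · exact ckR_true k1867 (by omega) (by omega)
  rcases Nat.lt_or_ge h 2088 with h1 | h1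
  · exact ckR_true k1978 (by omega) (by omega)
  rcases Nat.lt_or_ge h 2136 with h1 | h1
  · exact ckR_true k2088 (by omega) (by omega)
  omega

end Pool.Agent.T9h12.C6.H2
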